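import Mathlib

/-!
# Matrices over the `ℓ`-adic numbers which are congruent to one

The powers `T ^ (ℓ ^ k)` of a matrix `T` which is congruent to one modulo `ℓ ^ 2`, and their
commutators with another matrix.
-/

set_option autoImplicit false

namespace Pool.Agent.V8H91.MT

open Filter Topology

variable {ℓ : ℕ} [Fact ℓ.Prime] {n : ℕ}

/-- All entries have absolute value at most `c`. -/
def Bd (A : Matrix (Fin n) (Fin n) ℚ_[ℓ]) (c : ℝ) : Prop := ∀ i j, ‖A i j‖ ≤ c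

theorem Bd.mono {A : Matrix (Fin n) (Fin n) ℚ_[ℓ]} {c c' : ℝ} (h : Bd A c) (hc : c ≤ c') :
    Bd A c' := fun i j => (h i j).trans hc

theorem Bd.add {A B : Matrix (Fin n) (Fin n) ℚ_[ℓ]} {c : ℝ} (hA : Bd A c) (hB : Bd B c) :
    Bd (A + B) c := fun i j =>
  (IsUltrametricDist.norm_add_le_max _ _).trans (max_le (hA i j) (hB i j))

theorem Bd.neg {A : Matrix (Fin n) (Fin n) ℚ_[ℓ]} {c : ℝ} (hA : Bd A c) : Bd (-A) c :=
  fun i j => by rw [Matrix.neg_apply, norm_neg]; exact hA i j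

theorem Bd.sub {A B : Matrix (Fin n) (Fin n) ℚ_[ℓ]} {c : ℝ} (hA : Bd A c) (hB : Bd B c) :
    Bd (A - B) c := by
  rw [sub_eq_add_neg]
  exact hA.add hB.neg

theorem Bd.sum {ι : Type*} {s : Finset ι} {A : ι → Matrix (Fin n) (Fin n) ℚ_[ℓ]} {c : ℝ}
    (hc : 0 ≤ c) (hA : ∀ i ∈ s, Bd (A i) c) : Bd (∑ i ∈ s, A i) c := by
  intro i j
  rw [Matrix.sum_apply]
  exact IsUltrametricDist.norm_sum_le_of_forall_le_of_nonneg hc fun k hk => hA k hk i j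

theorem Bd.mul {A B : Matrix (Fin n) (Fin n) ℚ_[ℓ]} {a b : ℝ} (ha : 0 ≤ a) (hb : 0 ≤ b)
    (hA : Bd A a) (hB : Bd B b) : Bd (A * B) (a * b) := by
  intro i j
  rw [Matrix.mul_apply]
  refine IsUltrametricDist.norm_sum_le_of_forall_le_of_nonneg (mul_nonneg ha hb) fun k _ => ?_
  rw [norm_mul]
  exact mul_le_mul (hA i k) (hB k j) (norm_nonneg _) ha

theorem Bd.smul {A : Matrix (Fin n) (Fin n) ℚ_[ℓ]} {a : ℝ} (hA : Bd A a) (c : ℚ_[ℓ]) :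
    Bd (c • A) (‖c‖ * a) := by
  intro i j
  rw [Matrix.smul_apply, smul_eq_mul, norm_mul]
  exact mul_le_mul_of_nonneg_left (hA i j) (norm_nonneg _)

theorem bd_one : Bd (1 : Matrix (Fin n) (Fin n) ℚ_[ℓ]) 1 := by
  intro i j
  rw [Matrix.one_apply]
  split_ifs
  · rw [norm_one]
  · rw [norm_zero]; exact zero_le_one

theorem Bd.pow {A : Matrix (Fin n) (Fin n) ℚ_[ℓ]} {a : ℝ} (ha : 0 ≤ a) (hA : Bd A a) (k : ℕ) :
    Bd (A ^ k) (a ^ k) := by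
  induction k with
  | zero => rw [pow_zero, pow_zero]; exact bd_one
  | succ k ih => rw [pow_succ, pow_succ]; exact ih.mul (pow_nonneg ha k) ha hA

/-- The binomial coefficients. -/
theorem choose_bound {j : ℕ} (h1 : 1 ≤ j) (h2 : j < ℓ) :
    ‖((ℓ.choose j : ℕ) : ℚ_[ℓ])‖ ≤ (ℓ : ℝ)⁻¹ := by
  have hℓ : ℓ.Prime := Fact.out
  obtain ⟨c, hc⟩ := hℓ.dvd_choose_self (by omega) h2
  rw [hc, Nat.cast_mul, norm_mul, Padic.norm_p]
  have h3 : ‖((c : ℕ) : ℚ_[ℓ])‖ ≤ 1 := by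
    have := Padic.norm_int_le_one (p := ℓ) (c : ℤ)
    simpa using this
  have h4 : (0 : ℝ) ≤ (ℓ : ℝ)⁻¹ := by positivity
  nlinarith

/-- The powers of a matrix congruent to one. -/
theorem bd_pow_step {T : Matrix (Fin n) (Fin n) ℚ_[ℓ]} {r : ℝ} (hr : 0 ≤ r)
    (hr1 : r ≤ (ℓ : ℝ)⁻¹) (hT : Bd (T - 1) r) : Bd (T ^ ℓ - 1) ((ℓ : ℝ)⁻¹ * r) := by
  have hℓ : ℓ.Prime := Fact.out
  have hℓ2 : (2 : ℝ) ≤ ℓ := by exact_mod_cast hℓ.two_le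
  have hinv : (ℓ : ℝ)⁻¹ ≤ 1 := by
    rw [inv_le_one₀ (by linarith)]; linarith
  have hinv0 : (0 : ℝ) ≤ (ℓ : ℝ)⁻¹ := by positivity
  have hr2 : r ≤ 1 := hr1.trans hinv
  set X := T - 1 with hX
  have hTX : T = X + 1 := by rw [hX]; abel
  have h1 : T ^ ℓ - 1 = ∑ j ∈ Finset.Ico 1 (ℓ + 1), X ^ j * ((ℓ.choose j : ℕ) : Matrix (Fin n)
      (Fin n) ℚ_[ℓ]) := by
    rw [hTX, (Commute.one_right X).add_pow, Finset.range_eq_Ico,
      Finset.sum_eq_sum_Ico_succ_bot (by omega)]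
    simp
  rw [h1]
  refine Bd.sum (by positivity) fun j hj => ?_
  rw [Finset.mem_Ico] at hj
  have h2 : X ^ j * ((ℓ.choose j : ℕ) : Matrix (Fin n) (Fin n) ℚ_[ℓ]) =
      ((ℓ.choose j : ℕ) : ℚ_[ℓ]) • X ^ j := by
    rw [← nsmul_eq_mul', Nat.cast_smul_eq_nsmul]
  rw [h2]
  rcases Nat.lt_or_ge j ℓ with h3 | h3
  · refine ((hT.pow hr j).smul _).mono ?_
    have h4 : r ^ j ≤ r := by
      calc r ^ j ≤ r ^ 1 := pow_le_pow_of_le_one hr hr2 hj.1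
        _ = r := pow_one r
    exact mul_le_mul (choose_bound hj.1 h3) h4 (by positivity) hinv0
  · have h4 : j = ℓ := by omega
    subst h4
    rw [Nat.choose_self, Nat.cast_one, one_smul]
    refine (hT.pow hr j).mono ?_
    calc r ^ j ≤ r ^ 2 := pow_le_pow_of_le_one hr hr2 hℓ.two_le
      _ = r * r := sq r
      _ ≤ (j : ℝ)⁻¹ * r := mul_le_mul_of_nonneg_right hr1 hr

theorem bd_pow {T : Matrix (Fin n) (Fin n) ℚ_[ℓ]} {r : ℝ} (hr : 0 ≤ r)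
    (hr1 : r ≤ (ℓ : ℝ)⁻¹) (hT : Bd (T - 1) r) (k : ℕ) :
    Bd (T ^ (ℓ ^ k) - 1) (((ℓ : ℝ)⁻¹) ^ k * r) := by
  have hℓ : ℓ.Prime := Fact.out
  have hℓ2 : (2 : ℝ) ≤ ℓ := by exact_mod_cast hℓ.two_le
  have hinv : (ℓ : ℝ)⁻¹ ≤ 1 := by
    rw [inv_le_one₀ (by linarith)]; linarith
  have hinv0 : (0 : ℝ) ≤ (ℓ : ℝ)⁻¹ := by positivity
  induction k with
  | zero => simpa using hT
  | succ k ih =>
    rw [pow_succ ℓ k, pow_mul, pow_succ _ k]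
    have h1 : ((ℓ : ℝ)⁻¹) ^ k * r ≤ (ℓ : ℝ)⁻¹ := by
      have h2 : ((ℓ : ℝ)⁻¹) ^ k ≤ 1 := pow_le_one₀ hinv0 hinv
      have h3 : ((ℓ : ℝ)⁻¹) ^ k * r ≤ 1 * r := mul_le_mul_of_nonneg_right h2 hr
      linarith
    refine (bd_pow_step (by positivity) h1 ih).mono (le_of_eq ?_)
    ring

/-- The commutator with the powers. -/
theorem bd_comm_pow {X P : Matrix (Fin n) (Fin n) ℚ_[ℓ]} {x d : ℝ} (hx : 0 ≤ x) (hd : 0 ≤ d)
    (hX : Bd X x) (hD : Bd (X * P - P * X) d) (j : ℕ) :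
    Bd (X ^ (j + 1) * P - P * X ^ (j + 1)) (x ^ j * d) := by
  induction j with
  | zero => simpa using hD
  | succ j ih =>
    have h1 : X ^ (j + 1 + 1) * P - P * X ^ (j + 1 + 1) =
        X * (X ^ (j + 1) * P - P * X ^ (j + 1)) + (X * P - P * X) * X ^ (j + 1) := by
      rw [pow_succ' X (j + 1)]
      noncomm_ring
    rw [h1]
    refine Bd.add ?_ ?_
    · refine (hX.mul hx (by positivity) ih).mono (le_of_eq ?_)
      ring
    · refine (hD.mul hd (by positivity) (hX.pow hx (j + 1))).mono (le_of_eq ?_)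
      ring

/-- There is an entry of maximal absolute value. -/
theorem exists_max (A : Matrix (Fin n) (Fin n) ℚ_[ℓ]) (hn : 0 < n) :
    ∃ i j, Bd A ‖A i j‖ := by
  have : Nonempty (Fin n) := ⟨⟨0, hn⟩⟩
  obtain ⟨p, hp⟩ := Finite.exists_max fun p : Fin n × Fin n => ‖A p.1 p.2‖
  exact ⟨p.1, p.2, fun i j => hp (i, j)⟩

/-- The commutator with the `ℓ`-th power. -/
theorem comm_step {T P : Matrix (Fin n) (Fin n) ℚ_[ℓ]} (hT : Bd (T - 1) (((ℓ : ℝ)⁻¹) ^ 2))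
    {r : ℝ} (hr : 0 ≤ r) (h : Bd (T ^ ℓ * P - P * T ^ ℓ) ((ℓ : ℝ)⁻¹ * r)) :
    Bd (T * P - P * T) r := by
  have hℓ : ℓ.Prime := Fact.out
  have hℓ2 : (2 : ℝ) ≤ ℓ := by exact_mod_cast hℓ.two_le
  have hinv : (ℓ : ℝ)⁻¹ ≤ 1 / 2 := by
    rw [inv_le_comm₀ (by linarith) (by norm_num)]; norm_num; exact_mod_cast hℓ.two_le
  have hinv0 : (0 : ℝ) < (ℓ : ℝ)⁻¹ := by positivity
  rcases Nat.eq_zero_or_pos n with hn | hn
  · subst hn
    intro i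
    exact i.elim0
  obtain ⟨i, j, hmax⟩ := exists_max (T * P - P * T) hn
  set d := ‖(T * P - P * T) i j‖ with hd
  have hd0 : 0 ≤ d := norm_nonneg _
  set X := T - 1 with hX
  have hTX : T = X + 1 := by rw [hX]; abel
  have hXP : T * P - P * T = X * P - P * X := by
    rw [hTX]; noncomm_ring
  have hx0 : (0 : ℝ) ≤ ((ℓ : ℝ)⁻¹) ^ 2 := by positivity
  have h1 : (ℓ : ℚ_[ℓ]) • (T * P - P * T) = (T ^ ℓ * P - P * T ^ ℓ) -
      ∑ j ∈ Finset.Ico 2 (ℓ + 1), ((ℓ.choose j : ℕ) : ℚ_[ℓ]) • (X ^ j * P - P * X ^ j) := by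
    have h2 : T ^ ℓ = 1 + ((ℓ : ℚ_[ℓ]) • X + ∑ j ∈ Finset.Ico 2 (ℓ + 1),
        ((ℓ.choose j : ℕ) : ℚ_[ℓ]) • X ^ j) := by
      rw [hTX, (Commute.one_right X).add_pow, Finset.range_eq_Ico,
        Finset.sum_eq_sum_Ico_succ_bot (by omega),
        Finset.sum_eq_sum_Ico_succ_bot (by have := hℓ.two_le; omega)]
      have h3 : ∀ j, X ^ j * ((ℓ.choose j : ℕ) : Matrix (Fin n) (Fin n) ℚ_[ℓ]) =
          ((ℓ.choose j : ℕ) : ℚ_[ℓ]) • X ^ j := fun j => by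
        rw [← nsmul_eq_mul', Nat.cast_smul_eq_nsmul]
      have h5 : X * (ℓ : Matrix (Fin n) (Fin n) ℚ_[ℓ]) = (ℓ : ℚ_[ℓ]) • X := by
        rw [← nsmul_eq_mul', Nat.cast_smul_eq_nsmul]
      simp only [one_pow, mul_one, h3, h5, pow_zero, Nat.choose_zero_right, Nat.cast_one,
        zero_add, pow_one, Nat.choose_one_right, one_add_one_eq_two]
    rw [h2, hXP]
    simp only [add_mul, mul_add, one_mul, mul_one, Finset.sum_mul, Finset.mul_sum, smul_sub,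
      Finset.sum_sub_distrib, smul_mul_assoc, mul_smul_comm]
    abel
  have h4 : Bd (∑ j ∈ Finset.Ico 2 (ℓ + 1), ((ℓ.choose j : ℕ) : ℚ_[ℓ]) •
      (X ^ j * P - P * X ^ j)) ((ℓ : ℝ)⁻¹ * ((ℓ : ℝ)⁻¹ * d)) := by
    refine Bd.sum (by positivity) fun j hj => ?_
    rw [Finset.mem_Ico] at hj
    obtain ⟨m, rfl⟩ : ∃ m, j = m + 1 := ⟨j - 1, by omega⟩
    have h5 := bd_comm_pow hx0 hd0 hT (by rw [← hXP]; exact hmax) m
    have h6 : (((ℓ : ℝ)⁻¹) ^ 2) ^ m ≤ ((ℓ : ℝ)⁻¹) ^ 2 := by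
      calc (((ℓ : ℝ)⁻¹) ^ 2) ^ m ≤ (((ℓ : ℝ)⁻¹) ^ 2) ^ 1 :=
            pow_le_pow_of_le_one hx0 (by nlinarith) (by omega)
        _ = _ := pow_one _
    have h7 : ‖((ℓ.choose (m + 1) : ℕ) : ℚ_[ℓ])‖ ≤ 1 := by
      have := Padic.norm_int_le_one (p := ℓ) ((ℓ.choose (m + 1) : ℕ) : ℤ)
      simpa using this
    refine (h5.smul _).mono ?_
    calc ‖((ℓ.choose (m + 1) : ℕ) : ℚ_[ℓ])‖ * ((((ℓ : ℝ)⁻¹) ^ 2) ^ m * d)
        ≤ 1 * (((ℓ : ℝ)⁻¹) ^ 2 * d) :=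
          mul_le_mul h7 (mul_le_mul_of_nonneg_right h6 hd0) (by positivity) zero_le_one
      _ = _ := by ring
  have h8 : ‖(ℓ : ℚ_[ℓ]) • ((T * P - P * T) i j)‖ ≤
      max ((ℓ : ℝ)⁻¹ * r) ((ℓ : ℝ)⁻¹ * ((ℓ : ℝ)⁻¹ * d)) := by
    have h9 : (ℓ : ℚ_[ℓ]) • ((T * P - P * T) i j) = (T ^ ℓ * P - P * T ^ ℓ) i j -
        (∑ j ∈ Finset.Ico 2 (ℓ + 1), ((ℓ.choose j : ℕ) : ℚ_[ℓ]) • (X ^ j * P - P * X ^ j)) i j := by
      rw [← Matrix.sub_apply, ← h1, Matrix.smul_apply]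
    rw [h9, sub_eq_add_neg]
    refine (IsUltrametricDist.norm_add_le_max _ _).trans (max_le_max (h i j) ?_)
    rw [norm_neg]
    exact h4 i j
  rw [smul_eq_mul, norm_mul, Padic.norm_p, ← mul_max_of_nonneg _ _ hinv0.le] at h8
  have h10 : d ≤ max r ((ℓ : ℝ)⁻¹ * d) := le_of_mul_le_mul_left h8 hinv0
  have h11 : d ≤ r := by
    rcases le_max_iff.1 h10 with h | h
    · exact h
    · have : d ≤ 1 / 2 * d := h.trans (mul_le_mul_of_nonneg_right hinv hd0)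
      linarith
  exact hmax.mono h11

theorem comm_pow {T P : Matrix (Fin n) (Fin n) ℚ_[ℓ]} (hT : Bd (T - 1) (((ℓ : ℝ)⁻¹) ^ 2))
    {r : ℝ} (hr : 0 ≤ r) (k : ℕ)
    (h : Bd (T ^ (ℓ ^ k) * P - P * T ^ (ℓ ^ k)) (((ℓ : ℝ)⁻¹) ^ k * r)) :
    Bd (T * P - P * T) r := by
  have hℓ : ℓ.Prime := Fact.out
  have hℓ2 : (2 : ℝ) ≤ ℓ := by exact_mod_cast hℓ.two_le
  have hinv : (ℓ : ℝ)⁻¹ ≤ 1 := by
    rw [inv_le_one₀ (by linarith)]; linarith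
  have hinv0 : (0 : ℝ) < (ℓ : ℝ)⁻¹ := by positivity
  induction k generalizing r with
  | zero => simpa using h
  | succ k ih =>
    apply ih hr
    have h1 : Bd (T ^ (ℓ ^ k) - 1) (((ℓ : ℝ)⁻¹) ^ 2) := by
      refine (bd_pow (by positivity) ?_ hT k).mono ?_
      · rw [sq]; exact mul_le_of_le_one_left hinv0.le hinv
      · exact mul_le_of_le_one_left (by positivity) (pow_le_one₀ hinv0.le hinv)
    refine comm_step h1 (by positivity) ?_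
    rw [← pow_mul, ← pow_succ]
    refine h.mono (le_of_eq ?_)
    ring

end Pool.Agent.V8H91.MT
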