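import Mathlib
import Pool.Agent.V8H91.MT.Padic

/-!
# The first order term of the invariance of a multilinear form
-/

set_option autoImplicit false

namespace Pool.Agent.V8H91.MT

open Filter Topology

variable {ℓ : ℕ} [Fact ℓ.Prime] {n : ℕ} {κ : Type} [Fintype κ] [DecidableEq κ]

theorem multilin_cont (φ : MultilinearMap ℚ_[ℓ] (fun _ : κ => Fin n → ℚ_[ℓ]) ℚ_[ℓ]) :
    Continuous φ := by
  have h : (φ : (κ → Fin n → ℚ_[ℓ]) → ℚ_[ℓ]) = fun v =>
      ∑ f : κ → Fin n, (∏ j, v j (f j)) * φ (fun j => Pi.single (f j) 1) := by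
    funext v
    have h1 : v = fun j => ∑ a, v j a • (Pi.single a 1 : Fin n → ℚ_[ℓ]) := by
      funext j
      exact pi_eq_sum_univ' (v j)
    conv_lhs => rw [h1]
    rw [φ.map_sum]
    refine Finset.sum_congr rfl fun f _ => ?_
    rw [φ.map_smul_univ, smul_eq_mul]
  rw [h]
  refine continuous_finsetSum _ fun f _ => ?_
  refine Continuous.mul (continuous_finsetProd _ fun j _ => ?_) continuous_const
  exact (continuous_apply (f j)).comp (continuous_apply j)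

/-- The first order term. -/
theorem first_order (φ : MultilinearMap ℚ_[ℓ] (fun _ : κ => Fin n → ℚ_[ℓ]) ℚ_[ℓ])
    (v : κ → Fin n → ℚ_[ℓ]) (t : ℕ → ℚ_[ℓ]) (ht0 : ∀ k, t k ≠ 0) (ht : Tendsto t atTop (𝓝 0))
    (u : ℕ → κ → Fin n → ℚ_[ℓ]) (u₀ : κ → Fin n → ℚ_[ℓ]) (hu : Tendsto u atTop (𝓝 u₀))
    (x : ℕ → ℚ_[ℓ]) (x₀ : ℚ_[ℓ]) (hx : Tendsto x atTop (𝓝 x₀))
    (h : ∀ k, φ (v + t k • u k) = φ v + t k * x k) :
    ∑ j, φ (Function.update v j (u₀ j)) = x₀ := by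
  let φc : ContinuousMultilinearMap ℚ_[ℓ] (fun _ : κ => Fin n → ℚ_[ℓ]) ℚ_[ℓ] :=
    ⟨φ, multilin_cont φ⟩
  have h1 : HasFDerivWithinAt φc (φc.linearDeriv v) Set.univ v :=
    (φc.hasFDerivAt v).hasFDerivWithinAt
  have h2 := h1.lim (l := atTop) (c := fun k => (t k)⁻¹) (d := fun k => t k • u k) (v := u₀)
    (by simpa using ht.smul hu) (Filter.Eventually.of_forall fun _ => Set.mem_univ _)
    (by
      refine hu.congr fun k => ?_
      rw [smul_smul, inv_mul_cancel₀ (ht0 k), one_smul])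
  have h3 : (fun k => (t k)⁻¹ • (φc (v + t k • u k) - φc v)) = x := by
    funext k
    change (t k)⁻¹ • (φ (v + t k • u k) - φ v) = x k
    rw [h k, add_sub_cancel_left, smul_eq_mul, inv_mul_cancel_left₀ (ht0 k)]
  rw [h3] at h2
  have h4 := tendsto_nhds_unique h2 hx
  rw [← h4, ContinuousMultilinearMap.linearDeriv_apply]
  rfl

/-- Compactness: bounded sequences have convergent subsequences. -/
theorem exists_subseq (Y : ℕ → Matrix (Fin n) (Fin n) ℚ_[ℓ]) (y : ℕ → ℚ_[ℓ])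
    (hY : ∀ k, Bd (Y k) 1) (hy : ∀ k, ‖y k‖ ≤ 1) :
    ∃ (Y₀ : Matrix (Fin n) (Fin n) ℚ_[ℓ]) (y₀ : ℚ_[ℓ]) (f : ℕ → ℕ), StrictMono f ∧
      (∀ i j, Tendsto (fun k => Y (f k) i j) atTop (𝓝 (Y₀ i j))) ∧
      Tendsto (fun k => y (f k)) atTop (𝓝 y₀) := by
  let x : ℕ → (Fin n → Fin n → ℚ_[ℓ]) × ℚ_[ℓ] := fun k => (fun i j => Y k i j, y k)
  have hb : Bornology.IsBounded (Metric.closedBall (0 : (Fin n → Fin n → ℚ_[ℓ]) × ℚ_[ℓ]) 1) :=
    Metric.isBounded_closedBall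
  obtain ⟨a, -, f, hf, ha⟩ := tendsto_subseq_of_bounded hb (x := x) (by
    intro k
    rw [mem_closedBall_zero_iff, Prod.norm_def]
    refine max_le ?_ (hy k)
    refine (pi_norm_le_iff_of_nonneg zero_le_one).2 fun i => ?_
    exact (pi_norm_le_iff_of_nonneg zero_le_one).2 fun j => hY k i j)
  refine ⟨Matrix.of a.1, a.2, f, hf, fun i j => ?_, ?_⟩
  · have h1 := (continuous_fst.tendsto a).comp ha
    exact ((continuous_apply_apply i j).tendsto a.1).comp h1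
  · exact (continuous_snd.tendsto a).comp ha

end Pool.Agent.V8H91.MT
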