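import Mathlib
import Pool.Agent.V8H91.MT.Limit

/-!
# Limits of the powers of an element of the Galois group
-/

set_option autoImplicit false

namespace Pool.Agent.V8H91.MT

open Filter Topology

variable {ℓ : ℕ} [Fact ℓ.Prime] {n : ℕ} {κ : Type} [Fintype κ] [DecidableEq κ]

/-- The geometric sum. -/
theorem pow_sub {R : Type*} [Ring R] [Algebra ℚ_[ℓ] R] (t : ℚ_[ℓ]) (Y : R) (N : ℕ) :
    (1 + t • Y) ^ N = 1 + t • ((∑ i ∈ Finset.range N, (1 + t • Y) ^ i) * Y) := by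
  have h := geom_sum_mul (1 + t • Y) N
  rw [add_sub_cancel_left, mul_smul_comm] at h
  rw [h]
  abel

/-- The first order term of the invariance of a form under the powers of an element. -/
theorem coords_kill (φ : MultilinearMap ℚ_[ℓ] (fun _ : κ => Fin n → ℚ_[ℓ]) ℚ_[ℓ]) (N M : ℕ)
    (t : ℕ → ℚ_[ℓ]) (ht0 : ∀ k, t k ≠ 0) (ht : Tendsto t atTop (𝓝 0))
    (Y : ℕ → Matrix (Fin n) (Fin n) ℚ_[ℓ]) (y : ℕ → ℚ_[ℓ])
    (Y₀ : Matrix (Fin n) (Fin n) ℚ_[ℓ]) (y₀ : ℚ_[ℓ])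
    (hY : Tendsto Y atTop (𝓝 Y₀)) (hy : Tendsto y atTop (𝓝 y₀))
    (h : ∀ (k : ℕ) (v : κ → Fin n → ℚ_[ℓ]),
      φ (fun l => ((1 + t k • Y k) ^ N).mulVec (v l)) = (1 + t k * y k) ^ M * φ v)
    (v : κ → Fin n → ℚ_[ℓ]) :
    (N : ℚ_[ℓ]) * ∑ j, φ (Function.update v j (Y₀.mulVec (v j))) = M * y₀ * φ v := by
  have hT : Tendsto (fun k => 1 + t k • Y k) atTop (𝓝 1) := by
    have h1 := (tendsto_const_nhds (x := (1 : Matrix (Fin n) (Fin n) ℚ_[ℓ]))).add (ht.smul hY)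
    simpa using h1
  have hc : Tendsto (fun k => 1 + t k • y k) atTop (𝓝 1) := by
    have h1 := (tendsto_const_nhds (x := (1 : ℚ_[ℓ]))).add (ht.smul hy)
    simpa using h1
  have hZ : Tendsto (fun k => (∑ i ∈ Finset.range N, (1 + t k • Y k) ^ i) * Y k) atTop
      (𝓝 ((N : ℚ_[ℓ]) • Y₀)) := by
    have h1 : Tendsto (fun k => (∑ i ∈ Finset.range N, (1 + t k • Y k) ^ i)) atTop
        (𝓝 (∑ i ∈ Finset.range N, (1 : Matrix (Fin n) (Fin n) ℚ_[ℓ]) ^ i)) :=
      tendsto_finsetSum _ fun i _ => hT.pow i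
    have h2 := h1.mul hY
    have h3 : (∑ i ∈ Finset.range N, (1 : Matrix (Fin n) (Fin n) ℚ_[ℓ]) ^ i) * Y₀ =
        (N : ℚ_[ℓ]) • Y₀ := by
      simp only [one_pow, Finset.sum_const, Finset.card_range, nsmul_eq_mul, mul_one]
      rw [← nsmul_eq_mul, Nat.cast_smul_eq_nsmul]
    rwa [h3] at h2
  have hz : Tendsto (fun k => (∑ i ∈ Finset.range M, (1 + t k • y k) ^ i) * y k * φ v) atTop
      (𝓝 (M * y₀ * φ v)) := by
    have h1 : Tendsto (fun k => (∑ i ∈ Finset.range M, (1 + t k • y k) ^ i)) atTop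
        (𝓝 (∑ i ∈ Finset.range M, (1 : ℚ_[ℓ]) ^ i)) :=
      tendsto_finsetSum _ fun i _ => hc.pow i
    have h2 := (h1.mul hy).mul (tendsto_const_nhds (x := φ v))
    have h3 : (∑ i ∈ Finset.range M, (1 : ℚ_[ℓ]) ^ i) = M := by simp
    rwa [h3] at h2
  have h4 := first_order φ v t ht0 ht
    (fun k j => ((∑ i ∈ Finset.range N, (1 + t k • Y k) ^ i) * Y k).mulVec (v j))
    (fun j => ((N : ℚ_[ℓ]) • Y₀).mulVec (v j)) (by
      rw [tendsto_pi_nhds]
      intro j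
      exact ((Continuous.matrix_mulVec continuous_id continuous_const).tendsto _).comp hZ)
    (fun k => (∑ i ∈ Finset.range M, (1 + t k • y k) ^ i) * y k * φ v) (M * y₀ * φ v) hz
    (by
      intro k
      have h5 := h k v
      have h6 : (fun l => ((1 + t k • Y k) ^ N).mulVec (v l)) = v + t k • (fun j =>
          ((∑ i ∈ Finset.range N, (1 + t k • Y k) ^ i) * Y k).mulVec (v j)) := by
        funext j
        rw [pow_sub (t k) (Y k) N, Matrix.add_mulVec, Matrix.one_mulVec, Matrix.smul_mulVec]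
        rfl
      have h7 : (1 + t k * y k) ^ M = 1 + t k * ((∑ i ∈ Finset.range M, (1 + t k • y k) ^ i) * y k) :=
        pow_sub (t k) (y k) M
      rw [← h6, h5, h7]
      ring)
  rw [← h4, Finset.mul_sum]
  refine Finset.sum_congr rfl fun j _ => ?_
  rw [Matrix.smul_mulVec, φ.map_update_smul, smul_eq_mul]

end Pool.Agent.V8H91.MT
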