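import Mathlib
import Pool.Agent.V8H91.MT.Kill
import Pool.Agent.H204R3.SP.Lie

/-!
# Endomorphisms commuting with the Lie algebra commute with an open subgroup
-/

set_option autoImplicit false
set_option linter.unusedSectionVars false

namespace Pool.Agent.V8H91.MT

open Filter Topology Module Pool.Agent.H204R3.SP

variable {ℓ : ℕ} [Fact ℓ.Prime] {n : ℕ} {V : Type*} [AddCommGroup V] [Module ℚ_[ℓ] V]
  {Γ : Type*} [Group Γ] (ρ : Representation ℚ_[ℓ] Γ V) (χ : Γ →* ℚ_[ℓ])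
  (b : Basis (Fin n) ℚ_[ℓ] V)

theorem toMatrix_rho_pow (s : Γ) (j : ℕ) :
    LinearMap.toMatrix b b (ρ (s ^ j)) = (LinearMap.toMatrix b b (ρ s)) ^ j := by
  rw [map_pow, LinearMap.toMatrix_pow]

/-- The elements of the Galois group that are congruent to one. -/
def NearOne (s : Γ) : Prop :=
  Bd (LinearMap.toMatrix b b (ρ s) - 1) (((ℓ : ℝ)⁻¹) ^ 2) ∧ ‖χ s - 1‖ ≤ ((ℓ : ℝ)⁻¹) ^ 2

/-- The scalar case of the bounds for powers. -/
theorem scalar_pow {c : ℚ_[ℓ]} {r : ℝ} (hr : 0 ≤ r) (hr1 : r ≤ (ℓ : ℝ)⁻¹) (hc : ‖c - 1‖ ≤ r)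
    (k : ℕ) : ‖c ^ (ℓ ^ k) - 1‖ ≤ ((ℓ : ℝ)⁻¹) ^ k * r := by
  have h1 : Bd ((Matrix.scalar (Fin 1) c) - 1) r := by
    intro i j
    have hi : i = 0 := Subsingleton.elim _ _
    have hj : j = 0 := Subsingleton.elim _ _
    subst hi hj
    simpa using hc
  have h2 := bd_pow hr hr1 h1 k 0 0
  rw [← map_pow] at h2
  simpa using h2

theorem commutes_of_lieT {s : Γ} (hs : NearOne ρ χ b s) {P : Module.End ℚ_[ℓ] V}
    (hP : ∀ X ∈ lieT ρ χ, X * P = P * X) : ρ s * P = P * ρ s := by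
  classical
  have hℓ : ℓ.Prime := Fact.out
  have hℓ2 : (2 : ℝ) ≤ ℓ := by exact_mod_cast hℓ.two_le
  have hinv : (ℓ : ℝ)⁻¹ ≤ 1 := by
    rw [inv_le_one₀ (by linarith)]; linarith
  have hinv0 : (0 : ℝ) < (ℓ : ℝ)⁻¹ := by positivity
  have hr0 : (0 : ℝ) ≤ ((ℓ : ℝ)⁻¹) ^ 2 := by positivity
  have hr1 : ((ℓ : ℝ)⁻¹) ^ 2 ≤ (ℓ : ℝ)⁻¹ := by
    rw [sq]; exact mul_le_of_le_one_left hinv0.le hinv
  have hr2 : ((ℓ : ℝ)⁻¹) ^ 2 ≤ 1 := hr1.trans hinv
  obtain ⟨hT, hχ⟩ := hs
  set T := LinearMap.toMatrix b b (ρ s) with hTdef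
  set p := LinearMap.toMatrix b b P with hp
  have hℓ0 : (ℓ : ℚ_[ℓ]) ≠ 0 := by exact_mod_cast hℓ.ne_zero
  -- the sequences
  let t : ℕ → ℚ_[ℓ] := fun k => (ℓ : ℚ_[ℓ]) ^ k
  have ht0 : ∀ k, t k ≠ 0 := fun k => pow_ne_zero _ hℓ0
  have htn : ∀ k, ‖t k‖ = ((ℓ : ℝ)⁻¹) ^ k := fun k => by
    rw [norm_pow, Padic.norm_p]
  let Y : ℕ → Matrix (Fin n) (Fin n) ℚ_[ℓ] := fun k => (t k)⁻¹ • (T ^ (ℓ ^ k) - 1)
  let y : ℕ → ℚ_[ℓ] := fun k => (t k)⁻¹ * (χ s ^ (ℓ ^ k) - 1)
  have hinvt : ∀ k, ‖(t k)⁻¹‖ * (((ℓ : ℝ)⁻¹) ^ k * ((ℓ : ℝ)⁻¹) ^ 2) ≤ 1 := by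
    intro k
    rw [norm_inv, htn, inv_mul_cancel_left₀ (by positivity)]
    exact hr2
  have hYb : ∀ k, Bd (Y k) 1 := fun k => ((bd_pow hr0 hr1 hT k).smul _).mono (hinvt k)
  have hyb : ∀ k, ‖y k‖ ≤ 1 := by
    intro k
    refine le_trans ?_ (hinvt k)
    rw [norm_mul]
    exact mul_le_mul_of_nonneg_left (scalar_pow hr0 hr1 hχ k) (norm_nonneg _)
  have hYT : ∀ k, T ^ (ℓ ^ k) = 1 + t k • Y k := by
    intro k
    simp only [Y]
    rw [smul_smul, mul_inv_cancel₀ (ht0 k), one_smul]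
    abel
  have hyc : ∀ k, χ s ^ (ℓ ^ k) = 1 + t k * y k := by
    intro k
    simp only [y]
    rw [mul_inv_cancel_left₀ (ht0 k)]
    ring
  obtain ⟨Y₀, y₀, f, hf, hY₀, hy₀⟩ := exists_subseq Y y hYb hyb
  have hYt : Tendsto (fun k => Y (f k)) atTop (𝓝 Y₀) := by
    refine tendsto_pi_nhds.2 fun i => tendsto_pi_nhds.2 fun j => ?_
    exact hY₀ i j
  have htt : Tendsto (fun k => t (f k)) atTop (𝓝 0) := by
    have h1 : Tendsto t atTop (𝓝 0) := by
      apply tendsto_pow_atTop_nhds_zero_of_norm_lt_one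
      rw [Padic.norm_p]
      exact inv_lt_one_of_one_lt₀ (by linarith)
    exact h1.comp hf.tendsto_atTop
  -- the limit is in the Lie algebra
  let X₀ : Module.End ℚ_[ℓ] V := Matrix.toLin b b Y₀ - (y₀ / 2) • (1 : Module.End ℚ_[ℓ] V)
  have hX₀ : X₀ ∈ lieT ρ χ := by
    intro m φ hφ v
    obtain ⟨Δ, hΔ, hφ⟩ := hφ
    obtain ⟨N, hN0, hN, hNs⟩ := Subgroup.exists_pow_mem_of_index_ne_zero hΔ.index_ne_zero s
    let φ' : MultilinearMap ℚ_[ℓ] (fun _ : Fin m × Fin 2 => Fin n → ℚ_[ℓ]) ℚ_[ℓ] :=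
      φ.compLinearMap (fun _ => b.equivFun.symm.toLinearMap)
    have hφ' : ∀ x : Fin m × Fin 2 → Fin n → ℚ_[ℓ],
        φ' x = φ (fun j => b.equivFun.symm (x j)) := fun x => rfl
    have hmul : ∀ (A : Matrix (Fin n) (Fin n) ℚ_[ℓ]) (x : Fin n → ℚ_[ℓ]),
        b.equivFun.symm (A.mulVec x) = Matrix.toLin b b A (b.equivFun.symm x) := by
      intro A x
      rw [Matrix.toLin_apply, ← b.equivFun_symm_apply]
      congr 2
      change x = b.equivFun (b.equivFun.symm x)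
      rw [LinearEquiv.apply_symm_apply]
    have key := coords_kill φ' N (N * m) (fun k => t (f k)) (fun k => ht0 _) htt
      (fun k => Y (f k)) (fun k => y (f k)) Y₀ y₀ hYt hy₀ (by
        intro k x
        have h0 : T ^ (ℓ ^ f k) = LinearMap.toMatrix b b (ρ (s ^ ℓ ^ f k)) := by
          rw [toMatrix_rho_pow]
        rw [← hYT, ← hyc, h0, hφ', hφ']
        have h1 : ∀ j, b.equivFun.symm (((LinearMap.toMatrix b b (ρ (s ^ ℓ ^ f k))) ^ N).mulVec
            (x j)) = ρ ((s ^ N) ^ (ℓ ^ f k)) (b.equivFun.symm (x j)) := by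
          intro j
          rw [hmul, ← toMatrix_rho_pow, Matrix.toLin_toMatrix, ← pow_mul, ← pow_mul, mul_comm N]
        simp only [h1]
        rw [hφ _ (Δ.pow_mem hNs _)]
        congr 1
        rw [map_pow, map_pow, ← pow_mul, ← pow_mul, ← pow_mul]
        congr 1
        ring) (fun j => b.equivFun (v j))
    have hN' : (N : ℚ_[ℓ]) ≠ 0 := by
      exact_mod_cast hN0.ne'
    have h2 : ∑ j, φ' (Function.update (fun j => b.equivFun (v j)) j
        (Y₀.mulVec (b.equivFun (v j)))) = ∑ j, φ (Function.update v j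
          (Matrix.toLin b b Y₀ (v j))) := by
      refine Finset.sum_congr rfl fun j _ => ?_
      rw [hφ']
      congr 1
      funext i
      by_cases hij : i = j
      · subst hij
        rw [Function.update_self, Function.update_self, hmul, LinearEquiv.symm_apply_apply]
      · rw [Function.update_of_ne hij, Function.update_of_ne hij, LinearEquiv.symm_apply_apply]
    have h3 : φ' (fun j => b.equivFun (v j)) = φ v := by
      rw [hφ']
      simp only [LinearEquiv.symm_apply_apply]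
    rw [h2, h3] at key
    have h4 : ∑ j, φ (Function.update v j (Matrix.toLin b b Y₀ (v j))) = m * y₀ * φ v := by
      apply mul_left_cancel₀ hN'
      rw [key]
      push_cast
      ring
    have h5 : ∀ j, φ (Function.update v j (X₀ (v j))) =
        φ (Function.update v j (Matrix.toLin b b Y₀ (v j))) - (y₀ / 2) * φ v := by
      intro j
      simp only [X₀]
      rw [LinearMap.sub_apply, LinearMap.smul_apply, Module.End.one_apply, φ.map_update_sub,
        φ.map_update_smul, Function.update_eq_self, smul_eq_mul]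
    rw [Finset.sum_congr rfl (fun j _ => h5 j), Finset.sum_sub_distrib, h4, Finset.sum_const,
      Finset.card_univ, Fintype.card_prod, Fintype.card_fin, Fintype.card_fin, nsmul_eq_mul]
    push_cast
    ring
  have hcomm := hP X₀ hX₀
  have hcomm' : Y₀ * p = p * Y₀ := by
    have h1 : Matrix.toLin b b Y₀ * P = P * Matrix.toLin b b Y₀ := by
      have h2 : X₀ * P - P * X₀ = Matrix.toLin b b Y₀ * P - P * Matrix.toLin b b Y₀ := by
        simp only [X₀]
        rw [sub_mul, mul_sub, smul_mul_assoc, mul_smul_comm, one_mul, mul_one]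
        abel
      rw [hcomm, sub_self] at h2
      exact sub_eq_zero.1 h2.symm
    have h2 := congrArg (LinearMap.toMatrix b b) h1
    rw [LinearMap.toMatrix_mul, LinearMap.toMatrix_mul, LinearMap.toMatrix_toLin] at h2
    exact h2
  -- the commutators are arbitrarily small
  have hsmall : ∀ r : ℝ, 0 < r → Bd (T * p - p * T) r := by
    intro r hr
    have h1 : Tendsto (fun k => Y (f k) * p - p * Y (f k)) atTop (𝓝 (Y₀ * p - p * Y₀)) :=
      (hYt.mul_const p).sub (hYt.const_mul p)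
    rw [hcomm', sub_self] at h1
    have h2 : ∀ i j, ∀ᶠ k in atTop, ‖(Y (f k) * p - p * Y (f k)) i j‖ < r := by
      intro i j
      have h3 : Tendsto (fun k => (Y (f k) * p - p * Y (f k)) i j) atTop (𝓝 0) := by
        have h4 := (tendsto_pi_nhds.1 ((tendsto_pi_nhds.1 h1) i)) j
        exact h4
      have h4 := h3.norm
      rw [norm_zero] at h4
      exact h4.eventually (gt_mem_nhds hr)
    have h3 : ∀ᶠ k in atTop, ∀ i j, ‖(Y (f k) * p - p * Y (f k)) i j‖ < r :=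
      eventually_all.2 fun i => eventually_all.2 fun j => h2 i j
    obtain ⟨k, hk⟩ := h3.exists
    refine comm_pow hT hr.le (f k) ?_
    have h4 : T ^ (ℓ ^ f k) * p - p * T ^ (ℓ ^ f k) = t (f k) • (Y (f k) * p - p * Y (f k)) := by
      rw [hYT]
      rw [add_mul, mul_add, one_mul, mul_one, smul_mul_assoc, mul_smul_comm, smul_sub]
      abel
    rw [h4]
    have h5 : Bd (Y (f k) * p - p * Y (f k)) r := fun i j => (hk i j).le
    refine (h5.smul _).mono (le_of_eq ?_)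
    rw [htn]
  have hfin : T * p = p * T := by
    rw [← sub_eq_zero]
    ext i j
    rw [Matrix.zero_apply, ← norm_le_zero_iff]
    refine le_of_forall_pos_le_add fun r hr => ?_
    rw [zero_add]
    exact hsmall r hr i j
  apply (LinearMap.toMatrix b b).injective
  rw [LinearMap.toMatrix_mul, LinearMap.toMatrix_mul]
  exact hfin

end Pool.Agent.V8H91.MT
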