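import Mathlib
import Pool.Agent.V8H91.MT.Commute

/-!
# Open subgroups of compact groups acting continuously
-/

set_option autoImplicit false
set_option linter.unusedSectionVars false

namespace Pool.Agent.V8H91.MT

open Filter Topology Module Pool.Agent.H204R3.SP

variable {ℓ : ℕ} [Fact ℓ.Prime] {n : ℕ} {V : Type*} [AddCommGroup V] [Module ℚ_[ℓ] V]
  {Γ : Type*} [Group Γ] (ρ : Representation ℚ_[ℓ] Γ V) (χ : Γ →* ℚ_[ℓ])
  (b : Basis (Fin n) ℚ_[ℓ] V)

theorem bd_near_mul {A B : Matrix (Fin n) (Fin n) ℚ_[ℓ]} {r : ℝ} (hr : 0 ≤ r) (hr1 : r ≤ 1)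
    (hA : Bd (A - 1) r) (hB : Bd (B - 1) r) : Bd (A * B - 1) r := by
  have h : A * B - 1 = (A - 1) * (B - 1) + ((A - 1) + (B - 1)) := by noncomm_ring
  rw [h]
  refine Bd.add ?_ (hA.add hB)
  exact (hA.mul hr hr hB).mono (mul_le_of_le_one_left hr hr1)

theorem scalar_near_mul {a b : ℚ_[ℓ]} {r : ℝ} (hr : 0 ≤ r) (hr1 : r ≤ 1)
    (ha : ‖a - 1‖ ≤ r) (hb : ‖b - 1‖ ≤ r) : ‖a * b - 1‖ ≤ r := by
  have h : a * b - 1 = (a - 1) * (b - 1) + ((a - 1) + (b - 1)) := by ring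
  rw [h]
  refine (IsUltrametricDist.norm_add_le_max _ _).trans (max_le ?_
    ((IsUltrametricDist.norm_add_le_max _ _).trans (max_le ha hb)))
  rw [norm_mul]
  exact (mul_le_mul ha hb (norm_nonneg _) hr).trans (mul_le_of_le_one_left hr hr1)

theorem nearOne_mul {s t : Γ} (hs : NearOne ρ χ b s) (ht : NearOne ρ χ b t) :
    NearOne ρ χ b (s * t) := by
  have hℓ : ℓ.Prime := Fact.out
  have hℓ2 : (2 : ℝ) ≤ ℓ := by exact_mod_cast hℓ.two_le
  have hinv : (ℓ : ℝ)⁻¹ ≤ 1 := by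
    rw [inv_le_one₀ (by linarith)]; linarith
  have hinv0 : (0 : ℝ) < (ℓ : ℝ)⁻¹ := by positivity
  have hr0 : (0 : ℝ) ≤ ((ℓ : ℝ)⁻¹) ^ 2 := by positivity
  have hr1 : ((ℓ : ℝ)⁻¹) ^ 2 ≤ 1 := pow_le_one₀ hinv0.le hinv
  refine ⟨?_, ?_⟩
  · rw [map_mul, LinearMap.toMatrix_mul]
    exact bd_near_mul hr0 hr1 hs.1 ht.1
  · rw [map_mul]
    exact scalar_near_mul hr0 hr1 hs.2 ht.2

theorem nearOne_one : NearOne ρ χ b 1 := by
  have hr0 : (0 : ℝ) ≤ ((ℓ : ℝ)⁻¹) ^ 2 := by positivity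
  refine ⟨?_, ?_⟩
  · rw [map_one, LinearMap.toMatrix_one, sub_self]
    intro i j
    rw [Matrix.zero_apply, norm_zero]
    exact hr0
  · rw [map_one, sub_self, norm_zero]
    exact hr0

/-- The subgroup of the elements that are congruent to one. -/
def nearGroup : Subgroup Γ where
  carrier := {s | NearOne ρ χ b s ∧ NearOne ρ χ b s⁻¹}
  mul_mem' := by
    rintro s t ⟨h1, h2⟩ ⟨h3, h4⟩
    refine ⟨nearOne_mul ρ χ b h1 h3, ?_⟩
    rw [mul_inv_rev]
    exact nearOne_mul ρ χ b h4 h2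
  one_mem' := ⟨nearOne_one ρ χ b, by rw [inv_one]; exact nearOne_one ρ χ b⟩
  inv_mem' := by
    rintro s ⟨h1, h2⟩
    refine ⟨h2, ?_⟩
    rw [inv_inv]
    exact h1

/-- Continuity of the representation: all matrix coefficients are continuous. -/
def ContinuousCoeff {k V Γ : Type*} [Field k] [TopologicalSpace k] [AddCommGroup V] [Module k V]
    [Group Γ] [TopologicalSpace Γ] (ρ : Representation k Γ V) : Prop :=
  ∀ (v : V) (f : Module.Dual k V), Continuous fun s => f (ρ s v)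

variable [TopologicalSpace Γ] [IsTopologicalGroup Γ]

theorem nearGroup_nhds (hρ : ContinuousCoeff ρ) (hχ : Continuous χ) :
    ∀ᶠ s in 𝓝 (1 : Γ), NearOne ρ χ b s := by
  have hℓ : ℓ.Prime := Fact.out
  have hr0 : (0 : ℝ) < ((ℓ : ℝ)⁻¹) ^ 2 := by
    have : (0 : ℝ) < ℓ := by exact_mod_cast hℓ.pos
    positivity
  have h1 : ∀ i j, ∀ᶠ s in 𝓝 (1 : Γ), ‖(LinearMap.toMatrix b b (ρ s) - 1) i j‖ ≤
      ((ℓ : ℝ)⁻¹) ^ 2 := by
    intro i j
    have h2 : Continuous fun s => (LinearMap.toMatrix b b (ρ s) - 1) i j := by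
      have h3 : (fun s => (LinearMap.toMatrix b b (ρ s) - 1) i j) =
          fun s => b.coord i (ρ s (b j)) - (1 : Matrix (Fin n) (Fin n) ℚ_[ℓ]) i j := by
        funext s
        rw [Matrix.sub_apply, LinearMap.toMatrix_apply]
        rfl
      rw [h3]
      exact (hρ _ _).sub continuous_const
    have h4 := h2.norm.tendsto (1 : Γ)
    have h5 : ‖(LinearMap.toMatrix b b (ρ 1) - 1) i j‖ = 0 := by
      rw [map_one, LinearMap.toMatrix_one, sub_self, Matrix.zero_apply, norm_zero]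
    rw [h5] at h4
    filter_upwards [h4.eventually (gt_mem_nhds hr0)] with s hs using hs.le
  have h2 : ∀ᶠ s in 𝓝 (1 : Γ), ‖χ s - 1‖ ≤ ((ℓ : ℝ)⁻¹) ^ 2 := by
    have h3 : Continuous fun s => ‖χ s - 1‖ := (hχ.sub continuous_const).norm
    have h4 := h3.tendsto (1 : Γ)
    have h5 : ‖χ 1 - 1‖ = 0 := by rw [map_one, sub_self, norm_zero]
    rw [h5] at h4
    filter_upwards [h4.eventually (gt_mem_nhds hr0)] with s hs using hs.le
  filter_upwards [eventually_all.2 fun i => eventually_all.2 fun j => h1 i j, h2] with s h3 h4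
    using ⟨h3, h4⟩

variable [CompactSpace Γ]

theorem nearGroup_finiteIndex (hρ : ContinuousCoeff ρ) (hχ : Continuous χ) :
    (nearGroup ρ χ b).FiniteIndex := by
  have h1 := nearGroup_nhds ρ χ b hρ hχ
  have h2 : ∀ᶠ s in 𝓝 (1 : Γ), NearOne ρ χ b s⁻¹ := by
    have h3 : Tendsto (fun s : Γ => s⁻¹) (𝓝 1) (𝓝 1) := by
      simpa using (continuous_inv (G := Γ)).tendsto 1
    exact h3.eventually h1
  have h3 : IsOpen ((nearGroup ρ χ b : Subgroup Γ) : Set Γ) := by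
    apply Subgroup.isOpen_of_mem_nhds (g := 1)
    exact h1.and h2
  have h4 : Finite (Γ ⧸ nearGroup ρ χ b) := Subgroup.quotient_finite_of_isOpen _ h3
  exact Subgroup.finiteIndex_of_finite_quotient

variable [FiniteDimensional ℚ_[ℓ] V]

/-- An endomorphism which commutes with the Lie algebra of all endomorphisms that kill the Tate
classes commutes with an open subgroup. -/
theorem exists_commute (hρ : ContinuousCoeff ρ) (hχ : Continuous χ) {P : Module.End ℚ_[ℓ] V}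
    (hP : ∀ X ∈ lieT ρ χ, X * P = P * X) :
    ∃ Δ : Subgroup Γ, Δ.FiniteIndex ∧ ∀ s ∈ Δ, ∀ v, P (ρ s v) = ρ s (P v) := by
  refine ⟨nearGroup ρ χ (finBasis ℚ_[ℓ] V), nearGroup_finiteIndex ρ χ _ hρ hχ,
    fun s hs v => ?_⟩
  have h := commutes_of_lieT ρ χ (finBasis ℚ_[ℓ] V) hs.1 hP
  exact (congrArg (fun f : Module.End ℚ_[ℓ] V => f v) h).symm

end Pool.Agent.V8H91.MT
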