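import Mathlib
import Pool.Agent.W516.MT.Stmt

/-!
# Positivity of the Rosati involution on skew endomorphisms
-/

set_option autoImplicit false
set_option linter.unusedSectionVars false

namespace Pool.Agent.V8H91.MT

open Module Pool.Agent.W516

/-- A real endomorphism which is skew for a positive definite form and whose square has trace zero
is zero. -/
theorem zero_of_trace_sq {T : Type*} [NormedAddCommGroup T] [InnerProductSpace ℝ T]
    [FiniteDimensional ℝ T] (Q : T →ₗ[ℝ] T) (hQ : ∀ u v, inner ℝ (Q u) v = -inner ℝ u (Q v))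
    (htr : LinearMap.trace ℝ T (Q ∘ₗ Q) = 0) : Q = 0 := by
  have h1 := LinearMap.trace_eq_sum_inner (Q ∘ₗ Q) (stdOrthonormalBasis ℝ T)
  rw [htr] at h1
  have h2 : ∀ i, inner ℝ ((stdOrthonormalBasis ℝ T) i) ((Q ∘ₗ Q) ((stdOrthonormalBasis ℝ T) i)) =
      -inner ℝ (Q ((stdOrthonormalBasis ℝ T) i)) (Q ((stdOrthonormalBasis ℝ T) i)) := by
    intro i
    rw [LinearMap.comp_apply, hQ ((stdOrthonormalBasis ℝ T) i) (Q _), neg_neg]
  simp only [h2, Finset.sum_neg_distrib] at h1
  have h3 : ∑ i, inner ℝ (Q ((stdOrthonormalBasis ℝ T) i)) (Q ((stdOrthonormalBasis ℝ T) i)) =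
      (0 : ℝ) := by linarith
  have h4 := (Finset.sum_eq_zero_iff_of_nonneg (fun i _ => real_inner_self_nonneg)).1 h3
  refine (stdOrthonormalBasis ℝ T).toBasis.ext fun i => ?_
  rw [OrthonormalBasis.coe_toBasis, LinearMap.zero_apply]
  exact inner_self_eq_zero.1 (h4 i (Finset.mem_univ _))

theorem s_ros : MTS.S_ROS := by
  intro W T _ _ _ _ _ per n b b' hb ω₀ E hE1 hE2 hE3 hE4 P P' hP hskew htr
  classical
  -- the alternating form
  have halt : ∀ u v, E u v = -E v u := by
    intro u v
    have h1 := hE3 (u + v)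
    simp only [map_add, LinearMap.add_apply, hE3] at h1
    linarith
  have hI : ∀ x : T, Complex.I • Complex.I • x = -x := by
    intro x
    rw [smul_smul, Complex.I_mul_I, neg_one_smul]
  have hsym : ∀ u v, E (Complex.I • u) v = E (Complex.I • v) u := by
    intro u v
    rw [halt, ← hE2 v, hI, map_neg, neg_neg]
  -- real scalars commute with `I`
  have hIr : ∀ (r : ℝ) (x : T), Complex.I • (r • x) = r • (Complex.I • x) := by
    intro r x
    exact smul_comm _ _ _
  let core : InnerProductSpace.Core ℝ T :=
    { inner := fun u v => E (Complex.I • u) v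
      conj_inner_symm := fun u v => by
        change (starRingEnd ℝ) (E (Complex.I • v) u) = E (Complex.I • u) v
        rw [hsym u v]
        rfl
      re_inner_nonneg := fun u => by
        change 0 ≤ E (Complex.I • u) u
        by_cases h : u = 0
        · rw [h, map_zero]
        · exact (hE4 u h).le
      add_left := fun u v w => by
        change E (Complex.I • (u + v)) w = E (Complex.I • u) w + E (Complex.I • v) w
        rw [smul_add, map_add, LinearMap.add_apply]
      smul_left := fun u v r => by
        change E (Complex.I • (r • u)) v = (starRingEnd ℝ) r * E (Complex.I • u) v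
        rw [hIr, map_smul, LinearMap.smul_apply]
        rfl
      definite := fun u hu => by
        by_contra h
        exact (hE4 u h).ne' hu }
  let _ : NormedAddCommGroup T := core.toNormedAddCommGroup
  let _ : InnerProductSpace ℝ T := InnerProductSpace.ofCore core.toCore
  have hin : ∀ u v : T, inner ℝ u v = E (Complex.I • u) v := fun u v => rfl
  have : FiniteDimensional ℝ T := b'.finiteDimensional_of_finite
  let Q : T →ₗ[ℝ] T := P'.restrictScalars ℝ
  have hQ : ∀ x, Q x = P' x := fun _ => rfl
  -- the matrices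
  have hrepr : ∀ w i, b'.repr (per w) i = ((b.repr w i : ℚ) : ℝ) := by
    intro w i
    have h8 : per w = ∑ i, ((b.repr w i : ℚ) : ℝ) • b' i := by
      conv_lhs => rw [← b.sum_repr w, map_sum]
      refine Finset.sum_congr rfl fun i _ => ?_
      rw [hb]
      exact map_ratCast_smul per ℚ ℝ (b.repr w i) (b i)
    rw [h8, map_sum, Finsupp.finsetSum_apply]
    simp [Finsupp.single_apply]
  have hEskew : ∀ u v, E (Q u) v = -E u (Q v) := by
    have h1 : E.comp Q = -(E.compl₂ Q) := by
      refine b'.ext fun i => b'.ext fun j => ?_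
      rw [LinearMap.comp_apply, LinearMap.neg_apply, LinearMap.neg_apply,
        LinearMap.compl₂_apply, hQ, hQ, hb, hb, hP, hP, hE1, hE1]
      have h2 := hskew (b i) (b j)
      have h3 : ω₀ (P (b i)) (b j) = -ω₀ (b i) (P (b j)) := by linarith
      rw [h3]
      push_cast
      ring
    intro u v
    have h2 := congrArg (fun F : T →ₗ[ℝ] T →ₗ[ℝ] ℝ => F u v) h1
    simpa using h2
  have hQskew : ∀ u v, inner ℝ (Q u) v = -inner ℝ u (Q v) := by
    intro u v
    rw [hin, hin, hQ, ← P'.map_smul, ← hQ, hEskew]
  have htrQ : LinearMap.trace ℝ T (Q ∘ₗ Q) = 0 := by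
    have h1 : LinearMap.trace ℝ T (Q ∘ₗ Q) = ((LinearMap.trace ℚ W (P ∘ₗ P) : ℚ) : ℝ) := by
      rw [LinearMap.trace_eq_matrix_trace ℝ b', LinearMap.trace_eq_matrix_trace ℚ b, Matrix.trace,
        Matrix.trace, Rat.cast_sum]
      refine Finset.sum_congr rfl fun i _ => ?_
      rw [Matrix.diag_apply, Matrix.diag_apply, LinearMap.toMatrix_apply,
        LinearMap.toMatrix_apply, LinearMap.comp_apply, LinearMap.comp_apply, hQ, hQ, hb, hP, hP,
        hrepr]
    rw [h1, htr, Rat.cast_zero]
  have hQ0 := zero_of_trace_sq Q hQskew htrQ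
  refine b.ext fun i => ?_
  rw [LinearMap.zero_apply]
  apply b.repr.injective
  ext j
  rw [map_zero, Finsupp.zero_apply]
  have h1 : per (P (b i)) = 0 := by
    rw [← hP, ← hQ, hQ0, LinearMap.zero_apply]
  have h2 := hrepr (P (b i)) j
  rw [h1, map_zero, Finsupp.zero_apply] at h2
  exact_mod_cast h2.symm

end Pool.Agent.V8H91.MT
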