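import Mathlib
import Pool.Agent.W516.Cartan

/-!
# The Lie algebra acts semisimply
-/

set_option autoImplicit false
set_option linter.unusedSectionVars false

namespace Pool.Agent.V8H91.MT

open Module Pool.Agent.W516.KC

section

variable {k V Γ : Type*} [Field k] [CharZero k] [AddCommGroup V] [Module k V]
  [FiniteDimensional k V]
  [Group Γ] (ρ : Representation k Γ V) (𝔥 : Submodule k (Module.End k V))
  (hconj : ∀ (s : Γ), ∀ X ∈ 𝔥, ρ s * X * ρ s⁻¹ ∈ 𝔥)

/-- The associative algebra generated by the Lie algebra. -/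
abbrev BB : Subalgebra k (Module.End k V) := Algebra.adjoin k (𝔥 : Set (Module.End k V))

include hconj in
theorem conj_mem (s : Γ) {X : Module.End k V} (hX : X ∈ BB 𝔥) :
    ρ s * X * ρ s⁻¹ ∈ BB 𝔥 := by
  have hs : ρ s⁻¹ * ρ s = 1 := by rw [← map_mul, inv_mul_cancel, map_one]
  have hs' : ρ s * ρ s⁻¹ = 1 := by rw [← map_mul, mul_inv_cancel, map_one]
  induction hX using Algebra.adjoin_induction with
  | mem x hx => exact Algebra.subset_adjoin (hconj s x hx)
  | algebraMap r =>
    have h : ρ s * algebraMap k (Module.End k V) r * ρ s⁻¹ = algebraMap k (Module.End k V) r := by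
      rw [mul_assoc, Algebra.commutes, ← mul_assoc, hs', one_mul]
    rw [h]
    exact Subalgebra.algebraMap_mem _ _
  | add x y _ _ hx hy =>
    rw [mul_add, add_mul]
    exact add_mem hx hy
  | mul x y _ _ hx hy =>
    have h : ρ s * (x * y) * ρ s⁻¹ = (ρ s * x * ρ s⁻¹) * (ρ s * y * ρ s⁻¹) := by
      calc ρ s * (x * y) * ρ s⁻¹ = ρ s * x * 1 * y * ρ s⁻¹ := by noncomm_ring
        _ = _ := by rw [← hs]; noncomm_ring
    rw [h]
    exact mul_mem hx hy

/-- The translates of the submodules. -/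
def mv (s : Γ) (U : Submodule (BB 𝔥) V) : Submodule (BB 𝔥) V where
  carrier := {v | ρ s⁻¹ v ∈ U}
  zero_mem' := by
    change ρ s⁻¹ 0 ∈ U
    rw [map_zero]
    exact U.zero_mem
  add_mem' := by
    intro a b ha hb
    change ρ s⁻¹ (a + b) ∈ U
    rw [map_add]
    exact U.add_mem ha hb
  smul_mem' := by
    intro c x hx
    change ρ s⁻¹ (c.1 x) ∈ U
    have h1 := conj_mem ρ 𝔥 hconj s⁻¹ c.2
    rw [inv_inv] at h1
    have h2 : ρ s⁻¹ (c.1 x) = (ρ s⁻¹ * c.1 * ρ s) (ρ s⁻¹ x) := by
      have hs' : ρ s (ρ s⁻¹ x) = x := by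
        rw [← Module.End.mul_apply, ← map_mul, mul_inv_cancel, map_one]
        rfl
      rw [Module.End.mul_apply, Module.End.mul_apply, hs']
    rw [h2]
    exact U.smul_mem ⟨_, h1⟩ hx

theorem mem_mv (s : Γ) (U : Submodule (BB 𝔥) V) (v : V) :
    v ∈ mv ρ 𝔥 hconj s U ↔ ρ s⁻¹ v ∈ U := Iff.rfl

theorem rho_inv_apply (s : Γ) (v : V) : ρ s⁻¹ (ρ s v) = v := by
  rw [← Module.End.mul_apply, ← map_mul, inv_mul_cancel, map_one]
  rfl

theorem rho_apply_inv (s : Γ) (v : V) : ρ s (ρ s⁻¹ v) = v := by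
  rw [← Module.End.mul_apply, ← map_mul, mul_inv_cancel, map_one]
  rfl

/-- The translation as an order isomorphism. -/
def mvIso (s : Γ) : Submodule (BB 𝔥) V ≃o Submodule (BB 𝔥) V where
  toFun := mv ρ 𝔥 hconj s
  invFun := mv ρ 𝔥 hconj s⁻¹
  left_inv := by
    intro U
    ext v
    rw [mem_mv, mem_mv, inv_inv, rho_inv_apply]
  right_inv := by
    intro U
    ext v
    rw [mem_mv, mem_mv, inv_inv, rho_apply_inv]
  map_rel_iff' := by
    intro U U'
    constructor
    · intro h v hv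
      have h1 : ρ s v ∈ mv ρ 𝔥 hconj s U := by
        rw [mem_mv, rho_inv_apply]
        exact hv
      have h2 := h h1
      change ρ s v ∈ mv ρ 𝔥 hconj s U' at h2
      rwa [mem_mv, rho_inv_apply] at h2
    · intro h v hv
      exact h hv

/-- The subspaces stable under the Lie algebra as submodules. -/
def toSub (U : Submodule k V) (hU : ∀ X ∈ 𝔥, ∀ u ∈ U, X u ∈ U) : Submodule (BB 𝔥) V where
  carrier := U
  zero_mem' := U.zero_mem
  add_mem' := fun ha hb => U.add_mem ha hb
  smul_mem' := by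
    rintro ⟨c, hc⟩ x hx
    change c x ∈ U
    induction hc using Algebra.adjoin_induction generalizing x with
    | mem X hX => exact hU X hX x hx
    | algebraMap r => exact U.smul_mem r hx
    | add a b _ _ ha hb => exact U.add_mem (ha hx) (hb hx)
    | mul a b _ _ ha hb => exact ha (hb hx)

theorem mem_toSub (U : Submodule k V) (hU : ∀ X ∈ 𝔥, ∀ u ∈ U, X u ∈ U) (v : V) :
    v ∈ toSub 𝔥 U hU ↔ v ∈ U := Iff.rfl

theorem stable_of_sub (U : Submodule (BB 𝔥) V) :
    ∀ X ∈ 𝔥, ∀ u ∈ U.restrictScalars k, X u ∈ U.restrictScalars k := by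
  intro X hX u hu
  exact U.smul_mem ⟨X, Algebra.subset_adjoin hX⟩ hu

include hconj in
/-- A conjugation stable space of endomorphisms whose commutant contains the commutant of a
semisimple representation acts semisimply. -/
theorem semi_of_commutant
    (hss : ∀ U : Submodule k V, (∀ s, ∀ u ∈ U, ρ s u ∈ U) →
      ∃ U' : Submodule k V, (∀ s, ∀ u ∈ U', ρ s u ∈ U') ∧ IsCompl U U')
    (hcomm : ∀ P : Module.End k V, (∀ s v, P (ρ s v) = ρ s (P v)) → ∀ X ∈ 𝔥, X * P = P * X) :
    Semi 𝔥 := by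
  have hart : IsArtinian (BB 𝔥) V := isArtinian_of_tower k inferInstance
  have hatomic : IsAtomic (Submodule (BB 𝔥) V) := inferInstance
  -- the socle
  set S : Submodule (BB 𝔥) V := sSup {a | IsAtom a} with hS
  have hstab : ∀ s, ∀ u ∈ S.restrictScalars k, ρ s u ∈ S.restrictScalars k := by
    intro s u hu
    have h1 : S ≤ mv ρ 𝔥 hconj s⁻¹ S := by
      refine sSup_le fun a ha => ?_
      have h2 : mv ρ 𝔥 hconj s a ≤ S :=
        le_sSup (((mvIso ρ 𝔥 hconj s).isAtom_iff a).2 ha)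
      intro v hv
      rw [mem_mv, inv_inv]
      apply h2
      rw [mem_mv, rho_inv_apply]
      exact hv
    have h2 := h1 hu
    rwa [mem_mv, inv_inv] at h2
  obtain ⟨U', hU', hc⟩ := hss _ hstab
  -- the projector
  let P : Module.End k V := U'.projection (S.restrictScalars k) hc.symm
  have hPmem : ∀ v, P v ∈ U' := fun v => Submodule.projection_apply_mem hc.symm v
  have hPfix : ∀ v ∈ U', P v = v := fun v hv =>
    (Submodule.projection_eq_self_iff hc.symm v).2 hv
  have hPzero : ∀ v ∈ S.restrictScalars k, P v = 0 := fun v hv =>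
    (Submodule.projection_apply_eq_zero_iff hc.symm).2 hv
  have hdec : ∀ v : V, ∃ a ∈ S.restrictScalars k, ∃ c ∈ U', v = a + c := by
    intro v
    have h1 : v ∈ S.restrictScalars k ⊔ U' := by rw [hc.sup_eq_top]; trivial
    obtain ⟨a, ha, c, hc', h2⟩ := Submodule.mem_sup.1 h1
    exact ⟨a, ha, c, hc', h2.symm⟩
  have hPc : ∀ s v, P (ρ s v) = ρ s (P v) := by
    intro s v
    obtain ⟨a, ha, c, hc', rfl⟩ := hdec v
    rw [map_add, map_add, map_add, hPzero _ (hstab s a ha), hPfix _ (hU' s c hc'), hPzero a ha,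
      hPfix c hc', map_add, map_zero]
  have hst : ∀ X ∈ 𝔥, ∀ u ∈ U', X u ∈ U' := by
    intro X hX u hu
    have h1 := congrArg (fun f : Module.End k V => f u) (hcomm P hPc X hX)
    simp only [Module.End.mul_apply] at h1
    rw [hPfix u hu] at h1
    rw [h1]
    exact hPmem _
  have hbot : toSub 𝔥 U' hst = ⊥ := by
    rcases hatomic.eq_bot_or_exists_atom_le (toSub 𝔥 U' hst) with h | ⟨a, ha, hle⟩
    · exact h
    · exfalso
      have h1 : a ≤ S := le_sSup ha
      apply ha.1
      rw [eq_bot_iff]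
      intro v hv
      have h2 : v ∈ S.restrictScalars k ⊓ U' := ⟨h1 hv, hle hv⟩
      rw [hc.inf_eq_bot] at h2
      exact h2
  have htop : S = ⊤ := by
    rw [eq_top_iff]
    intro v _
    obtain ⟨a, ha, c, hc', rfl⟩ := hdec v
    have h1 : c ∈ toSub 𝔥 U' hst := hc'
    rw [hbot, Submodule.mem_bot] at h1
    rw [h1, add_zero]
    exact ha
  have hcl : ComplementedLattice (Submodule (BB 𝔥) V) :=
    complementedLattice_of_sSup_atoms_eq_top (hS ▸ htop)
  intro U hU
  obtain ⟨U'', h1⟩ := exists_isCompl (toSub 𝔥 U hU)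
  refine ⟨U''.restrictScalars k, stable_of_sub 𝔥 U'', ?_⟩
  constructor
  · rw [Submodule.disjoint_def]
    intro x hx hx'
    have h2 : x ∈ toSub 𝔥 U hU ⊓ U'' := ⟨hx, hx'⟩
    rw [h1.inf_eq_bot] at h2
    exact h2
  · rw [codisjoint_iff, eq_top_iff]
    intro x _
    have h2 : x ∈ toSub 𝔥 U hU ⊔ U'' := by rw [h1.sup_eq_top]; trivial
    obtain ⟨a, ha, c, hc', rfl⟩ := Submodule.mem_sup.1 h2
    exact Submodule.add_mem_sup ha hc'

end

end Pool.Agent.V8H91.MT
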