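import Mathlib
import Pool.Agent.W516.MT.Main2
import Pool.Agent.V8H91.MT.Near
import Pool.Agent.V8H91.MT.Socle
import Pool.Agent.V8H91.MT.Rosati

/-!
# One quartic Tate class decides the Mumford-Tate conjecture
-/

set_option autoImplicit false
set_option linter.unusedSectionVars false

namespace Pool.Agent.V8H91.MT

open Module TensorProduct Pool.Agent.H204R3.SP Pool.Agent.H204R3.GP Pool.Agent.W516.KC
  Pool.Agent.W516.MTD Pool.Agent.W516.DR Pool.Agent.W516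

noncomputable section

section casimir

variable {k W : Type*} [Field k] [CharZero k] [AddCommGroup W] [Module k W] [FiniteDimensional k W]
  (𝔥 : Submodule k (Module.End k W)) (hnt : KC2.TraceNondeg 𝔥) (ω : W →ₗ[k] W →ₗ[k] k)
  (halt : ∀ v, ω v v = 0) (hsp : ∀ X ∈ 𝔥, ∀ u v, ω (X u) v + ω u (X v) = 0)

include halt in
theorem om_anti (u v : W) : ω u v = -ω v u := by
  have h1 := halt (u + v)
  simp only [map_add, LinearMap.add_apply, halt, zero_add, add_zero] at h1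
  exact eq_neg_of_add_eq_zero_left (by rw [← h1]; ring)

include halt hsp in
theorem EE_symm (u v : W) : KC2.EE 𝔥 hnt ω u v = KC2.EE 𝔥 hnt ω v u := by
  refine KC2.ext_trace 𝔥 hnt (KC2.EE_mem ..) (KC2.EE_mem ..) fun X hX => ?_
  rw [KC2.EE_trace 𝔥 hnt ω u v hX, KC2.EE_trace 𝔥 hnt ω v u hX]
  have h1 := hsp X hX u v
  have h2 := om_anti ω halt u (X v)
  linear_combination h1 - h2

include halt hsp in
theorem casimir_symm (u v w x : W) :
    ω (KC2.EE 𝔥 hnt ω u v w) x = ω (KC2.EE 𝔥 hnt ω v u w) x ∧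
    ω (KC2.EE 𝔥 hnt ω u v w) x = ω (KC2.EE 𝔥 hnt ω u v x) w ∧
    ω (KC2.EE 𝔥 hnt ω u v w) x = ω (KC2.EE 𝔥 hnt ω w x u) v := by
  refine ⟨?_, ?_, ?_⟩
  · rw [EE_symm 𝔥 hnt ω halt hsp u v]
  · have h1 := hsp _ (KC2.EE_mem 𝔥 hnt ω u v) w x
    have h2 := om_anti ω halt w (KC2.EE 𝔥 hnt ω u v x)
    linear_combination h1 - h2
  · rw [← KC2.EE_trace 𝔥 hnt ω w x (KC2.EE_mem 𝔥 hnt ω u v),
      ← KC2.EE_trace 𝔥 hnt ω u v (KC2.EE_mem 𝔥 hnt ω w x), LinearMap.trace_mul_comm]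

end casimir

variable {k : Type} [Field k] [CharZero k] {W T : Type} [AddCommGroup W] [Module ℚ W]
  [FiniteDimensional ℚ W] [AddCommGroup T] [Module ℂ T] (per : W →+ T)
  {Γ : Type} [Group Γ] (ρ : Representation k Γ (k ⊗[ℚ] W)) (χ : Γ →* k)
  (ω₀ : W →ₗ[ℚ] W →ₗ[ℚ] ℚ) (ω : k ⊗[ℚ] W →ₗ[k] k ⊗[ℚ] W →ₗ[k] k)
  (hper : MTD.IsRationalStructure per) (hR : IsRiemannForm per ω₀)
  (hωω : ∀ u v : W, ω ((1 : k) ⊗ₜ[ℚ] u) ((1 : k) ⊗ₜ[ℚ] v) = algebraMap ℚ k (ω₀ u v))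
  (hωρ : ∀ s u v, ω (ρ s u) (ρ s v) = χ s * ω u v)
  (hD : Deligne per ρ χ)

include hR hωω in
/-- The Weil pairing is alternating. -/
theorem weil_alt : ∀ v, ω v v = 0 := by
  have h0 : ∀ u v : W, ω₀ u v = -ω₀ v u := by
    obtain ⟨E, h1, -, h3, -⟩ := hR
    intro u v
    have h2 := h3 (per u + per v)
    simp only [map_add, LinearMap.add_apply, h3, zero_add, add_zero, h1] at h2
    have h4 : ((ω₀ u v : ℚ) : ℝ) = -((ω₀ v u : ℚ) : ℝ) := by linarith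
    exact_mod_cast h4
  have h1 : ω = -ω.flip := by
    refine TensorProduct.AlgebraTensorModule.ext fun c u => ?_
    refine TensorProduct.AlgebraTensorModule.ext fun d v => ?_
    have e1 : c ⊗ₜ[ℚ] u = c • ((1 : k) ⊗ₜ[ℚ] u) := by rw [smul_tmul', smul_eq_mul, mul_one]
    have e2 : d ⊗ₜ[ℚ] v = d • ((1 : k) ⊗ₜ[ℚ] v) := by rw [smul_tmul', smul_eq_mul, mul_one]
    rw [LinearMap.neg_apply, LinearMap.neg_apply, LinearMap.flip_apply, e1, e2]
    simp only [map_smul, LinearMap.smul_apply, hωω, smul_eq_mul]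
    rw [h0 u v, map_neg]
    ring
  intro v
  have h2 : ω v v = -ω v v := by
    conv_lhs => rw [h1]
    rw [LinearMap.neg_apply, LinearMap.neg_apply, LinearMap.flip_apply]
  have h3 : (2 : k) * ω v v = 0 := by linear_combination h2
  exact (mul_eq_zero.1 h3).resolve_left two_ne_zero

include hD in
/-- Combinations of Hodge classes are Tate classes. -/
theorem tate_of_hc {m : ℕ} (φ : MultilinearMap k (fun _ : Fin m × Fin 2 => k ⊗[ℚ] W) k)
    (hφ : MTD.IsHodgeCombination per φ) : IsTateTensor ρ χ m φ := by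
  unfold MTD.IsHodgeCombination at hφ
  induction hφ using Submodule.span_induction with
  | mem φ h =>
    obtain ⟨ψ, h1, h2⟩ := h
    exact hD m ψ h1 φ h2
  | zero =>
    refine ⟨⊤, inferInstance, fun s _ v => ?_⟩
    change (0 : k) = χ s ^ m * 0
    rw [mul_zero]
  | add a b _ _ ha hb =>
    obtain ⟨Δ, hΔ, h1⟩ := ha
    obtain ⟨Δ', hΔ', h2⟩ := hb
    refine ⟨Δ ⊓ Δ', inferInstance, fun s hs v => ?_⟩
    change a _ + b _ = χ s ^ m * (a v + b v)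
    rw [h1 s hs.1, h2 s hs.2, mul_add]
  | smul c a _ ha =>
    obtain ⟨Δ, hΔ, h1⟩ := ha
    refine ⟨Δ, hΔ, fun s hs v => ?_⟩
    change c * a _ = χ s ^ m * (c * a v)
    rw [h1 s hs]
    ring

variable (hC : Centres per ρ χ)
  (hcomm : ∀ P : Module.End k (k ⊗[ℚ] W), (∀ X ∈ lieT ρ χ, X * P = P * X) → P ∈ endos k per)
  (hnt : KC2.TraceNondeg (lieT ρ χ))

include hωρ in
/-- The quartic class is a Tate class. -/
theorem casimir_equi (s : Γ) (v : Fin 2 × Fin 2 → k ⊗[ℚ] W) :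
    KC2.casimir (lieT ρ χ) hnt ω (fun l => ρ s (v l)) =
      χ s ^ 2 * KC2.casimir (lieT ρ χ) hnt ω v := by
  refine KC2.casimir_inv (lieT ρ χ) hnt ω (g := ρ s) (g' := ρ s⁻¹) ?_ ?_ (hωρ s) ?_ ?_ v
  · rw [← map_mul, inv_mul_cancel, map_one]
  · rw [← map_mul, mul_inv_cancel, map_one]
  · intro X hX
    exact lieT_conj ρ χ s hX
  · intro X hX
    have h1 := lieT_conj ρ χ s⁻¹ hX
    rwa [inv_inv] at h1

include hper hR hωω hωρ hD hC hcomm in
/-- If the quartic class is a combination of Hodge classes then all Tate classes are. -/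
theorem all_of_casimir (hΘ : MTD.IsHodgeCombination per (KC2.casimir (lieT ρ χ) hnt ω)) (m : ℕ)
    (φ : MultilinearMap k (fun _ : Fin m × Fin 2 => k ⊗[ℚ] W) k)
    (hφ : IsTateTensor ρ χ m φ) : MTD.IsHodgeCombination per φ := by
  have hnd₀ := MTM.riemann_nondeg per ω₀ hper hR
  have hnd := nondeg_ext ω₀ ω hωω hnd₀
  have hRH := MTM.riemann_hodge per ω₀ hR
  -- the endomorphisms that kill the Hodge classes are in the Lie algebra
  have hmem : ∀ Z₀ : Module.End ℚ W, (∀ (m' : ℕ)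
      (ψ : MultilinearMap ℚ (fun _ : Fin m' × Fin 2 => W) ℚ), IsHodgeTensor per ψ →
        Kills Z₀ ψ) → Z₀.baseChange k ∈ lieT ρ χ := by
    intro Z₀ hk
    have hZs : IsSkew ω (Z₀.baseChange k) :=
      skew_ext ω₀ ω hωω ((kills_one2 ω₀ Z₀).1 (hk 1 _ (one2_hodge per ω₀ hRH)))
    have hZk : Kills (Z₀.baseChange k) (KC2.casimir (lieT ρ χ) hnt ω) :=
      kills_span (fun ψ => IsHodgeTensor per ψ) Z₀ (hk 2) _ ((MTM.hc_iff per _).1 hΘ)
    obtain ⟨Y, hY, hYc⟩ := KC2.mem_of_kills_casimir (lieT ρ χ) hnt ω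
      (fun X hX Y hY => lieT_bracket ρ χ hX hY) hnd hZs hZk
    have h1 : Z₀.baseChange k - Y ∈ lieT ρ χ := by
      refine hC _ (hcomm _ hYc) (fun P hP => ?_) (fun m φ hφ => ?_)
      · have e1 := MTM.comm_endos per ω₀ hper hR Z₀ hk hP
        have e2 := MTM.lieT_comm per ρ χ ω₀ ω hper hR hωω hωρ hD hY hP
        refine LinearMap.ext fun z => ?_
        have e3 := congrArg (fun f : Module.End k (k ⊗[ℚ] W) => f z) e1
        have e4 := congrArg (fun f : Module.End k (k ⊗[ℚ] W) => f z) e2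
        simp only [Module.End.mul_apply] at e3 e4
        rw [Module.End.mul_apply, Module.End.mul_apply, LinearMap.sub_apply, LinearMap.sub_apply,
          map_sub, e3, e4]
      · have h2 := kills_span (fun ψ => IsHodgeTensor per ψ) Z₀ (hk m) φ
          ((MTM.hc_iff per φ).1 hφ)
        have h3 := MTM.lieT_hc per ρ χ hD hY φ hφ
        intro v
        have h4 : ∀ j, φ (Function.update v j ((Z₀.baseChange k - Y) (v j))) =
            φ (Function.update v j (Z₀.baseChange k (v j))) -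
              φ (Function.update v j (Y (v j))) := by
          intro j
          rw [LinearMap.sub_apply, MultilinearMap.map_update_sub]
        rw [Finset.sum_congr rfl (fun j _ => h4 j), Finset.sum_sub_distrib, h2 v, h3 v, sub_zero]
    have h2 : Z₀.baseChange k = (Z₀.baseChange k - Y) + Y := by abel
    rw [h2]
    exact Submodule.add_mem _ h1 hY
  rw [MTM.hc_iff]
  refine form_mem_span (fun ψ => IsHodgeTensor per ψ) φ fun lam => ?_
  refine hodge_of_kills per hper _ fun Z₀ hk => ?_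
  exact kills_fcmp lam φ Z₀ (hmem Z₀ hk m φ hφ)

end

noncomputable section

variable {ℓ : ℕ} [Fact ℓ.Prime] {W T : Type} [AddCommGroup W] [Module ℚ W]
  [FiniteDimensional ℚ W] [AddCommGroup T] [Module ℂ T] (per : W →+ T)
  {Γ : Type} [Group Γ] [TopologicalSpace Γ] [IsTopologicalGroup Γ] [CompactSpace Γ]
  (ρ : Representation ℚ_[ℓ] Γ (ℚ_[ℓ] ⊗[ℚ] W)) (χ : Γ →* ℚ_[ℓ])
  (ω₀ : W →ₗ[ℚ] W →ₗ[ℚ] ℚ)
  (ω : ℚ_[ℓ] ⊗[ℚ] W →ₗ[ℚ_[ℓ]] ℚ_[ℓ] ⊗[ℚ] W →ₗ[ℚ_[ℓ]] ℚ_[ℓ])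

/-- The four variables of a quartic form. -/
def quad {V : Type*} (u v w x : V) : Fin 2 × Fin 2 → V :=
  fun l => if l.1 = 0 then (if l.2 = 0 then u else v) else (if l.2 = 0 then w else x)

/-- The final statement: one quartic Tate class. -/
theorem quartic_final (hρ : ContinuousCoeff ρ) (hχ : Continuous χ)
    (hper : MTD.IsRationalStructure per) (hR : IsRiemannForm per ω₀)
    (hωω : ∀ u v : W, ω ((1 : ℚ_[ℓ]) ⊗ₜ[ℚ] u) ((1 : ℚ_[ℓ]) ⊗ₜ[ℚ] v) = ((ω₀ u v : ℚ) : ℚ_[ℓ]))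
    (hωρ : ∀ s u v, ω (ρ s u) (ρ s v) = χ s * ω u v)
    (hss : Semisimple ρ) (hF : Faltings per ρ) (hD : Deligne per ρ χ) (hC : Centres per ρ χ) :
    ∃ Θ : MultilinearMap ℚ_[ℓ] (fun _ : Fin 2 × Fin 2 => ℚ_[ℓ] ⊗[ℚ] W) ℚ_[ℓ],
      (∀ s v, Θ (fun l => ρ s (v l)) = χ s ^ 2 * Θ v) ∧
      (∀ u v w x, Θ (quad u v w x) = Θ (quad v u w x) ∧ Θ (quad u v w x) = Θ (quad u v x w) ∧
        Θ (quad u v w x) = Θ (quad w x u v)) ∧
      (MTD.IsHodgeCombination per Θ ↔ ∀ (m : ℕ)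
        (φ : MultilinearMap ℚ_[ℓ] (fun _ : Fin m × Fin 2 => ℚ_[ℓ] ⊗[ℚ] W) ℚ_[ℓ]),
        IsTateTensor ρ χ m φ ↔ MTD.IsHodgeCombination per φ) := by
  have hωω' : ∀ u v : W, ω ((1 : ℚ_[ℓ]) ⊗ₜ[ℚ] u) ((1 : ℚ_[ℓ]) ⊗ₜ[ℚ] v) =
      algebraMap ℚ ℚ_[ℓ] (ω₀ u v) := fun u v => by rw [hωω, eq_ratCast]
  have hcomm : ∀ P : Module.End ℚ_[ℓ] (ℚ_[ℓ] ⊗[ℚ] W), (∀ X ∈ lieT ρ χ, X * P = P * X) →
      P ∈ endos ℚ_[ℓ] per := fun P hP => hF P (exists_commute ρ χ hρ hχ hP)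
  have hsemi : Semi (lieT ρ χ) := by
    refine semi_of_commutant ρ (lieT ρ χ) (fun s X hX => lieT_conj ρ χ s hX) hss
      (fun P hP X hX => ?_)
    refine MTM.lieT_comm per ρ χ ω₀ ω hper hR hωω' hωρ hD hX (hF P ?_)
    exact ⟨⊤, inferInstance, fun s _ v => hP s v⟩
  have hnt := MTM.lieT_trace per ρ χ ω₀ ω hper hR hωω' hωρ hD hC hcomm hsemi s_ros
  have halt := weil_alt per ω₀ ω hR hωω'
  have hsp : ∀ X ∈ lieT ρ χ, ∀ u v, ω (X u) v + ω u (X v) = 0 := fun X hX u v =>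
    lieT_sp ρ χ ω hωρ hX u v
  have hq : ∀ u v w x, KC2.casimir (lieT ρ χ) hnt ω (quad u v w x) =
      ω (KC2.EE (lieT ρ χ) hnt ω u v w) x := by
    intro u v w x
    rw [KC2.casimir_apply]
    rfl
  refine ⟨KC2.casimir (lieT ρ χ) hnt ω, casimir_equi ρ χ ω hωρ hnt, fun u v w x => ?_,
    fun hΘ m φ => ⟨fun hφ => ?_, fun hφ => ?_⟩, fun h => ?_⟩
  · rw [hq, hq, hq, hq]
    exact casimir_symm (lieT ρ χ) hnt ω halt hsp u v w x
  · exact all_of_casimir per ρ χ ω₀ ω hper hR hωω' hωρ hD hC hcomm hnt hΘ m φ hφ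
  · exact tate_of_hc per ρ χ hD φ hφ
  · exact (h 2 _).1 ⟨⊤, inferInstance, fun s _ v => casimir_equi ρ χ ω hωρ hnt s v⟩

end

end Pool.Agent.V8H91.MT
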